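import Pool.Agent.helper25.PP.Spec

set_option autoImplicit false

namespace PP

open Finset SimpleGraph CT

/-- Almost all 4-regular graphs are prime ancestors. -/
theorem AAP (h1 : DN3_stmt) (h2 : CH4_stmt) (h3 : DT1_stmt) (h4 : DT2_stmt) (h5 : DT3_stmt)
    (h6 : NUM_stmt) : AAP_stmt := by
  intro ε hε
  obtain ⟨n₀, hn₀⟩ := h6 ε hε
  refine ⟨max n₀ 1800, ?_⟩
  intro V _ _ hV
  have hn1 : n₀ ≤ Fintype.card V := le_trans (le_max_left _ _) hV
  have hn2 : 1800 ≤ Fintype.card V := le_trans (le_max_right _ _) hV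
  have hD := h1 V
  have hC := h2 V hn2
  have hN := hn₀ _ hn1
  have hunion : cc (fun _ : SimpleGraph V => True) ≤
      cc (V := V) PrimeAncestor + cc (V := V) E1 + cc (V := V) E2 := by
    classical
    unfold cc
    have hsub : RP (fun _ : SimpleGraph V => True) ⊆
        RP (V := V) PrimeAncestor ∪ RP (V := V) E1 ∪ RP (V := V) E2 := by
      intro G hG
      rw [mem_cc] at hG
      by_cases hE1 : E1 G
      · exact mem_union_left _ (mem_union_right _ ((mem_cc _ _).2 ⟨hG.1, hE1⟩))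
      by_cases hE2 : E2 G
      · exact mem_union_right _ ((mem_cc _ _).2 ⟨hG.1, hE2⟩)
      refine mem_union_left _ (mem_union_left _ ((mem_cc _ _).2 ⟨hG.1, ?_⟩))
      exact ⟨by omega, hG.1,
        fun S hS hc hcon => h3 V G hG.1 hE1 hE2 (by omega) S hS hc hcon,
        fun X hX => h4 V G hG.1 hE1 hE2 (by omega) X hX,
        fun u w huw => h5 V G hE1 (by omega) u w huw⟩
    exact (card_le_card hsub).trans ((card_union_le _ _).trans
      (Nat.add_le_add_right (card_union_le _ _) _))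
  have hU : ((cc (fun _ : SimpleGraph V => True) : ℕ) : ℝ) ≤
      (cc (V := V) PrimeAncestor : ℝ) + (cc (V := V) E1 : ℝ) + (cc (V := V) E2 : ℝ) := by
    exact_mod_cast hunion
  have hnpos : (0 : ℝ) < (Fintype.card V : ℝ) := by
    have : 0 < Fintype.card V := by omega
    exact_mod_cast this
  have hT : (0 : ℝ) ≤ ((cc (fun _ : SimpleGraph V => True) : ℕ) : ℝ) := Nat.cast_nonneg _
  have hE1 : (cc (V := V) E1 : ℝ) ≤
      1500000 / (Fintype.card V : ℝ) * ((cc (fun _ : SimpleGraph V => True) : ℕ) : ℝ) := by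
    rw [div_mul_eq_mul_div, le_div_iff₀ hnpos]
    linarith
  have hpow : (0 : ℝ) < 2 ^ (Fintype.card V / 300) := by positivity
  have hC' : (2 : ℝ) ^ (Fintype.card V / 300) * (cc (V := V) E2 : ℝ) ≤
      (Fintype.card V : ℝ) * (7 * (2 * (Fintype.card V : ℝ) ^ 2) ^ 6) *
        ((cc (fun _ : SimpleGraph V => True) : ℕ) : ℝ) := by
    exact_mod_cast hC
  have hE2 : (cc (V := V) E2 : ℝ) ≤
      (Fintype.card V : ℝ) * (7 * (2 * (Fintype.card V : ℝ) ^ 2) ^ 6) /
        2 ^ (Fintype.card V / 300) * ((cc (fun _ : SimpleGraph V => True) : ℕ) : ℝ) := by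
    rw [div_mul_eq_mul_div, le_div_iff₀ hpow]
    linarith
  have hS := mul_le_mul_of_nonneg_right hN hT
  have hS' : (cc (V := V) E1 : ℝ) + (cc (V := V) E2 : ℝ) ≤
      ε * ((cc (fun _ : SimpleGraph V => True) : ℕ) : ℝ) := by
    calc (cc (V := V) E1 : ℝ) + (cc (V := V) E2 : ℝ)
        ≤ _ := add_le_add hE1 hE2
      _ = (1500000 / (Fintype.card V : ℝ) + (Fintype.card V : ℝ) *
          (7 * (2 * (Fintype.card V : ℝ) ^ 2) ^ 6) / 2 ^ (Fintype.card V / 300)) *
          ((cc (fun _ : SimpleGraph V => True) : ℕ) : ℝ) := by ring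
      _ ≤ _ := hS
  have : (1 - ε) * ((cc (fun _ : SimpleGraph V => True) : ℕ) : ℝ) =
      ((cc (fun _ : SimpleGraph V => True) : ℕ) : ℝ) -
        ε * ((cc (fun _ : SimpleGraph V => True) : ℕ) : ℝ) := by ring
  rw [this]
  linarith

end PP
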