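import Pool.Agent.helper36.PP.SpecM

/-!
# Project pp, module KER
-/

set_option autoImplicit false

open Complex Metric Set Filter Topology MeasureTheory MPS MQ Pool.Agent.helper98.ILF

noncomputable section

namespace PPS

theorem KER_it_add (f : Polynomial ℂ) (m k : ℕ) (z : ℂ) :
    it f (m + k) z = it f m (it f k z) := by
  unfold it
  rw [Function.iterate_add_apply]

theorem KER_it_mul (f : Polynomial ℂ) (k : ℕ) (z : ℂ) (h : it f k z = z) (t : ℕ) :
    it f (k * t) z = z := by
  induction t with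
  | zero => rfl
  | succ t ih => rw [Nat.mul_succ, KER_it_add, h, ih]

theorem KER_CT_mul (c : ℂ) (μ : ℂ → ℂ) (b : ℂ) :
    NLF.CT (fun z => c * μ z) b = c * NLF.CT μ b := by
  unfold NLF.CT
  rw [← integral_const_mul]
  refine integral_congr_ae (Eventually.of_forall fun z => ?_)
  simp only [mul_div_assoc]

theorem KER_comb {ι : Type} (S : Finset ι) (l : ι → ℂ) (g : ι → ℂ → ℂ) (w : ℂ)
    (h : ∀ x ∈ S, Integrable (fun z => g x z / (z - w))) :
    Integrable (fun z => (∑ x ∈ S, l x * g x z) / (z - w)) ∧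
    ∫ z, (∑ x ∈ S, l x * g x z) / (z - w) = ∑ x ∈ S, l x * ∫ z, g x z / (z - w) := by
  have e : (fun z => (∑ x ∈ S, l x * g x z) / (z - w)) =
      fun z => ∑ x ∈ S, l x * (g x z / (z - w)) := by
    funext z
    rw [Finset.sum_div]
    exact Finset.sum_congr rfl (fun x _ => mul_div_assoc _ _ _)
  rw [e]
  constructor
  · exact integrable_finsetSum _ (fun x hx => (h x hx).const_mul _)
  · rw [integral_finsetSum _ (fun x hx => (h x hx).const_mul _)]
    exact Finset.sum_congr rfl (fun x _ => integral_const_mul _ _)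

theorem KER_bd {ι : Type} (S : Finset ι) (l : ι → ℂ) (g : ι → ℂ) (h : ∀ x ∈ S, ‖g x‖ ≤ 1) :
    ‖∑ x ∈ S, l x * g x‖ ≤ ∑ x ∈ S, ‖l x‖ := by
  refine (norm_sum_le _ _).trans (Finset.sum_le_sum (fun x hx => ?_))
  rw [norm_mul]
  exact mul_le_of_le_one_right (norm_nonneg _) (h x hx)

theorem KER_PR (f : Polynomial ℂ) (A : ℝ) (F P : Finset ℂ) (N : ℕ) (μJ : Fin N → ℂ → ℂ)
    (μF βF μP βP : ℂ → ℂ → ℂ) (hJ : ∀ i, LF f A (μJ i)) (hF : ∀ x ∈ F, PR f A (μF x) (βF x))
    (hP : ∀ p ∈ P, PR f A (μP p) (βP p)) (l : Fin N → ℂ) (lF lP : ℂ → ℂ) (μ β : ℂ → ℂ)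
    (hμ : ∀ z, μ z = (∑ i, l i * μJ i z) + (∑ x ∈ F, lF x * μF x z) + ∑ p ∈ P, lP p * μP p z)
    (hβ : ∀ z, β z = (∑ x ∈ F, lF x * βF x z) + ∑ p ∈ P, lP p * βP p z) :
    ∃ c : ℝ, 0 < c ∧ PR f A (fun z => (c : ℂ) * μ z) (fun z => (c : ℂ) * β z) := by
  set B := (∑ i, ‖l i‖) + (∑ x ∈ F, ‖lF x‖) + ∑ p ∈ P, ‖lP p‖ with hB
  have hB1 : 0 ≤ ∑ i, ‖l i‖ := Finset.sum_nonneg (fun _ _ => norm_nonneg _)
  have hB2 : 0 ≤ ∑ x ∈ F, ‖lF x‖ := Finset.sum_nonneg (fun _ _ => norm_nonneg _)
  have hB3 : 0 ≤ ∑ p ∈ P, ‖lP p‖ := Finset.sum_nonneg (fun _ _ => norm_nonneg _)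
  have hB0 : 0 ≤ B := by positivity
  have hc : 0 < 1 / (1 + B) := by positivity
  have hcB : 1 / (1 + B) * B ≤ 1 := by
    rw [one_div, inv_mul_le_iff₀ (by positivity)]
    linarith
  have hbμ : ∀ z, ‖μ z‖ ≤ B := by
    intro z
    rw [hμ z, hB]
    refine (norm_add_le _ _).trans (add_le_add ((norm_add_le _ _).trans (add_le_add ?_ ?_)) ?_)
    · exact KER_bd _ _ _ (fun i _ => (hJ i).bd z)
    · exact KER_bd _ _ (fun x => μF x z) (fun x hx => (hF x hx).bdμ z)
    · exact KER_bd _ _ (fun x => μP x z) (fun x hx => (hP x hx).bdμ z)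
  have hbβ : ∀ z, ‖β z‖ ≤ B := by
    intro z
    rw [hβ z, hB]
    refine (norm_add_le _ _).trans ?_
    have h1 := KER_bd F lF (fun x => βF x z) (fun x hx => (hF x hx).bdβ z)
    have h2 := KER_bd P lP (fun x => βP x z) (fun x hx => (hP x hx).bdβ z)
    linarith
  refine ⟨1 / (1 + B), hc, ?_⟩
  refine ⟨?_, ?_, ?_, ?_, ?_, ?_, ?_⟩
  · have e : μ = fun z => (∑ i, l i * μJ i z) + (∑ x ∈ F, lF x * μF x z) +
        ∑ p ∈ P, lP p * μP p z := funext hμ
    rw [e]
    refine measurable_const.mul (((Finset.measurable_sum _ fun i _ => ?_).add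
      (Finset.measurable_sum _ fun x hx => ?_)).add (Finset.measurable_sum _ fun p hp => ?_))
    · exact measurable_const.mul (hJ i).meas
    · exact measurable_const.mul (hF x hx).measμ
    · exact measurable_const.mul (hP p hp).measμ
  · have e : β = fun z => (∑ x ∈ F, lF x * βF x z) + ∑ p ∈ P, lP p * βP p z := funext hβ
    rw [e]
    refine measurable_const.mul ((Finset.measurable_sum _ fun x hx => ?_).add
      (Finset.measurable_sum _ fun p hp => ?_))
    · exact measurable_const.mul (hF x hx).measβ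
    · exact measurable_const.mul (hP p hp).measβ
  · intro z
    rw [norm_mul, Complex.norm_real, Real.norm_of_nonneg hc.le]
    exact (mul_le_mul_of_nonneg_left (hbμ z) hc.le).trans hcB
  · intro z
    rw [norm_mul, Complex.norm_real, Real.norm_of_nonneg hc.le]
    exact (mul_le_mul_of_nonneg_left (hbβ z) hc.le).trans hcB
  · intro z hz
    by_contra hA
    apply hz
    rw [hμ z]
    rw [Finset.sum_eq_zero, Finset.sum_eq_zero, Finset.sum_eq_zero]
    · simp
    · intro p hp
      have : μP p z = 0 := by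
        by_contra h
        exact hA ((hP p hp).suppμ z h)
      rw [this, mul_zero]
    · intro p hp
      have : μF p z = 0 := by
        by_contra h
        exact hA ((hF p hp).suppμ z h)
      rw [this, mul_zero]
    · intro i _
      have : μJ i z = 0 := by
        by_contra h
        exact hA ((hJ i).supp z h)
      rw [this, mul_zero]
  · intro z hz
    by_contra hA
    apply hz
    rw [hβ z]
    rw [Finset.sum_eq_zero, Finset.sum_eq_zero]
    · simp
    · intro p hp
      have : βP p z = 0 := by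
        by_contra h
        exact hA ((hP p hp).suppβ z h)
      rw [this, mul_zero]
    · intro p hp
      have : βF p z = 0 := by
        by_contra h
        exact hA ((hF p hp).suppβ z h)
      rw [this, mul_zero]
  · have i1 : ∀ᵐ z : ℂ, ∀ i, μJ i (f.eval z) * (starRingEnd ℂ) (fd f z) / fd f z = μJ i z :=
      ae_all_iff.2 (fun i => (hJ i).inv)
    have i2 : ∀ᵐ z : ℂ, ∀ x ∈ F, (μF x (f.eval z) + βF x (f.eval z)) *
        (starRingEnd ℂ) (fd f z) / fd f z = μF x z :=
      (Filter.eventually_all_finset F).2 (fun x hx => (hF x hx).inv)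
    have i3 : ∀ᵐ z : ℂ, ∀ x ∈ P, (μP x (f.eval z) + βP x (f.eval z)) *
        (starRingEnd ℂ) (fd f z) / fd f z = μP x z :=
      (Filter.eventually_all_finset P).2 (fun x hx => (hP x hx).inv)
    filter_upwards [i1, i2, i3] with z h1 h2 h3
    rw [hμ z, hμ (f.eval z), hβ (f.eval z)]
    have e1 : (∑ i, l i * μJ i (f.eval z)) * (starRingEnd ℂ) (fd f z) / fd f z =
        ∑ i, l i * μJ i z := by
      rw [Finset.sum_mul, Finset.sum_div]
      refine Finset.sum_congr rfl (fun i _ => ?_)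
      rw [← h1 i]
      ring
    have e2 : ((∑ x ∈ F, lF x * μF x (f.eval z)) + ∑ x ∈ F, lF x * βF x (f.eval z)) *
        (starRingEnd ℂ) (fd f z) / fd f z = ∑ x ∈ F, lF x * μF x z := by
      rw [← Finset.sum_add_distrib, Finset.sum_mul, Finset.sum_div]
      refine Finset.sum_congr rfl (fun x hx => ?_)
      rw [← h2 x hx]
      ring
    have e3 : ((∑ x ∈ P, lP x * μP x (f.eval z)) + ∑ x ∈ P, lP x * βP x (f.eval z)) *
        (starRingEnd ℂ) (fd f z) / fd f z = ∑ x ∈ P, lP x * μP x z := by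
      rw [← Finset.sum_add_distrib, Finset.sum_mul, Finset.sum_div]
      refine Finset.sum_congr rfl (fun x hx => ?_)
      rw [← h3 x hx]
      ring
    rw [← e1, ← e2, ← e3]
    ring

/-- the value of the Cauchy transform of the combination near `q` -/
theorem KER_near (f : Polynomial ℂ) (A r : ℝ) (F P : Finset ℂ) (hr : 0 < r)
    (s s' : ℂ → ℝ) (μF βF μP βP : ℂ → ℂ → ℂ)
    (hF : ∀ x ∈ F, RowX f A r x 1 0 (s x) (μF x) (βF x))
    (hP : ∀ p ∈ P, RowX f A r p 0 1 (s' p) (μP p) (βP p)) (lF lP : ℂ → ℂ) (κ : ℂ → ℂ)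
    (hκ : ∀ w, κ w = (∑ x ∈ F, lF x * NLF.CT (βF x) w) + ∑ p ∈ P, lP p * NLF.CT (βP p) w)
    (q : ℂ) (hq1 : ∀ x ∈ F, x = q ∨ r < ‖q - x‖ ∨ lF x = 0)
    (hq2 : ∀ p ∈ P, p = q ∨ r < ‖q - p‖ ∨ lP p = 0) :
    ∀ᶠ w in 𝓝 q, κ w = (if q ∈ F then lF q * s q else 0) +
      (if q ∈ P then lP q * s' q else 0) * (w - q) := by
  have hfar : ∀ x : ℂ, r < ‖q - x‖ → ∀ᶠ w in 𝓝 q, r < ‖w - x‖ := by
    intro x hx
    have h1 : Continuous (fun w : ℂ => ‖w - x‖) := by fun_prop
    exact (isOpen_lt continuous_const h1).mem_nhds hx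
  have hnear : ∀ᶠ w in 𝓝 q, ‖w - q‖ ≤ r / 2 := by
    filter_upwards [ball_mem_nhds q (half_pos hr)] with w hw
    rw [mem_ball, dist_eq_norm] at hw
    exact hw.le
  have h1 : ∀ᶠ w in 𝓝 q, ∀ x ∈ F, lF x * NLF.CT (βF x) w = if x = q then lF x * s x else 0 := by
    refine (Filter.eventually_all_finset F).2 (fun x hx => ?_)
    by_cases hxq : x = q
    · subst hxq
      filter_upwards [hnear] with w hw
      rw [if_pos rfl, (hF x hx).inn w hw]
      ring
    · rcases hq1 x hx with h | h | h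
      · exact absurd h hxq
      · filter_upwards [hfar x h] with w hw
        rw [if_neg hxq, ((hF x hx).out w hw).1, mul_zero]
      · filter_upwards with w
        rw [if_neg hxq, h, zero_mul]
  have h2 : ∀ᶠ w in 𝓝 q, ∀ p ∈ P, lP p * NLF.CT (βP p) w =
      if p = q then lP p * s' p * (w - q) else 0 := by
    refine (Filter.eventually_all_finset P).2 (fun x hx => ?_)
    by_cases hxq : x = q
    · subst hxq
      filter_upwards [hnear] with w hw
      rw [if_pos rfl, (hP x hx).inn w hw]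
      ring
    · rcases hq2 x hx with h | h | h
      · exact absurd h hxq
      · filter_upwards [hfar x h] with w hw
        rw [if_neg hxq, ((hP x hx).out w hw).1, mul_zero]
      · filter_upwards with w
        rw [if_neg hxq, h, zero_mul]
  filter_upwards [h1, h2] with w hw1 hw2
  rw [hκ w, Finset.sum_congr rfl hw1, Finset.sum_congr rfl hw2, Finset.sum_ite_eq',
    Finset.sum_ite_eq']
  split_ifs <;> ring

theorem KER_coef (κ : ℂ → ℂ) (q c₀ c₁ : ℂ) (h : ∀ᶠ w in 𝓝 q, κ w = c₀ + c₁ * (w - q))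
    (h0 : ∀ᶠ w in 𝓝 q, κ w = 0) : c₀ = 0 ∧ c₁ = 0 := by
  have h1 : (fun w => c₀ + c₁ * (w - q)) =ᶠ[𝓝 q] fun _ => (0 : ℂ) := by
    filter_upwards [h, h0] with w hw hw0
    rw [← hw, hw0]
  constructor
  · have h2 := h1.self_of_nhds
    simpa using h2
  · have h3 : HasDerivAt (fun w : ℂ => c₀ + c₁ * (w - q)) (c₁ * 1) q :=
      (((hasDerivAt_id q).sub_const q).const_mul c₁).const_add c₀
    have h4 := h1.deriv_eq
    rw [h3.deriv, deriv_const, mul_one] at h4
    exact h4

theorem KER (hVAN : VAN_stmt) (hINF : INF_stmt) (hCYC : CYC_stmt) (hMX : MX_stmt)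
    (hLNZ : LNZ_stmt) (hCTA : CTA_stmt) : KER_stmt := by
  intro f A r F P T s s' μF βF μP βP N μJ hf hRD hT hFT hAPt hFE hrF hrP hLF l lF lP μ β hμ hβ
    hCV hder
  obtain ⟨c, hc, hPR⟩ := KER_PR f A F P N μJ μF βF μP βP hLF (fun x hx => (hrF x hx).2.pr)
    (fun p hp => (hrP p hp).2.pr) l lF lP μ β hμ hβ
  have hcC : (c : ℂ) ≠ 0 := by
    rw [Ne, Complex.ofReal_eq_zero]
    exact hc.ne'
  obtain ⟨hi1, ⟨M, hM⟩, hcont, -, hdiff, -⟩ := hCTA _ A hPR.measμ hPR.bdμ hPR.suppμ
  obtain ⟨hi2, -, -, -, -, -⟩ := hCTA _ A hPR.measβ hPR.bdβ hPR.suppβ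
  have hJ1 : ∀ b, Integrable (fun z => μ z / (z - b)) := by
    intro b
    refine ((hi1 b).const_mul ((c : ℂ)⁻¹)).congr (Eventually.of_forall fun z => ?_)
    show (c : ℂ)⁻¹ * ((c : ℂ) * μ z / (z - b)) = μ z / (z - b)
    rw [mul_div_assoc, ← mul_assoc, inv_mul_cancel₀ hcC, one_mul]
  have hJ2 : ∀ b, Integrable (fun z => β z / (z - b)) := by
    intro b
    refine ((hi2 b).const_mul ((c : ℂ)⁻¹)).congr (Eventually.of_forall fun z => ?_)
    show (c : ℂ)⁻¹ * ((c : ℂ) * β z / (z - b)) = β z / (z - b)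
    rw [mul_div_assoc, ← mul_assoc, inv_mul_cancel₀ hcC, one_mul]
  have hadd : ∀ b, NLF.CT (fun z => μ z + β z) b = NLF.CT μ b + NLF.CT β b := by
    intro b
    unfold NLF.CT
    rw [← integral_add (hJ1 b) (hJ2 b)]
    refine integral_congr_ae (Eventually.of_forall fun z => ?_)
    simp only [add_div]
  have haeq : ∀ b, NLF.CT μ b = (c : ℂ)⁻¹ * NLF.CT (fun z => (c : ℂ) * μ z) b := by
    intro b
    rw [KER_CT_mul, ← mul_assoc, inv_mul_cancel₀ hcC, one_mul]
  set a := NLF.CT μ with ha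
  set κ := NLF.CT β with hκdef
  have hacont : Continuous a := by
    have : a = fun b => (c : ℂ)⁻¹ * NLF.CT (fun z => (c : ℂ) * μ z) b := funext haeq
    rw [this]
    exact continuous_const.mul hcont
  have habd : ∀ z, ‖a z‖ ≤ c⁻¹ * M := by
    intro z
    rw [haeq z, norm_mul, norm_inv, Complex.norm_real, Real.norm_of_nonneg hc.le]
    exact mul_le_mul_of_nonneg_left (hM z) (inv_nonneg.2 hc.le)
  have hfe : ∀ z, fd f z * a z = a (f.eval z) + κ (f.eval z) := by
    intro z
    have h1 := hVAN f A _ _ hf hPR (by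
      intro v hv
      have e : (fun z => (c : ℂ) * μ z + (c : ℂ) * β z) = fun z => (c : ℂ) * (μ z + β z) := by
        funext z
        ring
      rw [e, KER_CT_mul (c : ℂ) (fun z => μ z + β z) v, hCV v hv, mul_zero]) z
    rw [KER_CT_mul, KER_CT_mul, KER_CT_mul] at h1
    apply mul_left_cancel₀ hcC
    linear_combination h1
  -- formula for κ
  have hκ : ∀ w, κ w = (∑ x ∈ F, lF x * NLF.CT (βF x) w) + ∑ p ∈ P, lP p * NLF.CT (βP p) w := by
    intro w
    have hF1 := KER_comb F lF (fun x => βF x) w (fun x hx => by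
      have h := (hrF x hx).2.pr
      exact (hCTA _ A h.measβ h.bdβ h.suppβ).1 w)
    have hP1 := KER_comb P lP (fun x => βP x) w (fun x hx => by
      have h := (hrP x hx).2.pr
      exact (hCTA _ A h.measβ h.bdβ h.suppβ).1 w)
    have e : κ w = ∫ z, ((∑ x ∈ F, lF x * βF x z) / (z - w) +
        (∑ p ∈ P, lP p * βP p z) / (z - w)) := by
      rw [hκdef]
      unfold NLF.CT
      refine integral_congr_ae (Eventually.of_forall fun z => ?_)
      simp only [hβ z, add_div]
    rw [e, integral_add hF1.1 hP1.1, hF1.2, hP1.2]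
    rfl
  have hnear := KER_near f A r F P hRD.r0 s s' μF βF μP βP (fun x hx => (hrF x hx).2)
    (fun p hp => (hrP p hp).2) lF lP κ hκ
  -- near infinity
  have hκinf : ∀ z : ℂ, A ≤ ‖z‖ → κ z = 0 := by
    intro z hz
    have hout : ∀ x ∈ F ∪ P, r < ‖z - x‖ := by
      intro x hx
      by_contra hcon
      have h1 : z ∈ closedBall x r := by
        rw [mem_closedBall, dist_eq_norm]
        exact not_lt.1 hcon
      have h2 := hRD.sub x hx h1
      rw [mem_ball, dist_zero_right] at h2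
      linarith
    rw [hκ z, Finset.sum_eq_zero, Finset.sum_eq_zero, add_zero]
    · intro p hp
      rw [((hrP p hp).2.out z (hout p (Finset.mem_union_right _ hp))).1, mul_zero]
    · intro x hx
      rw [((hrF x hx).2.out z (hout x (Finset.mem_union_left _ hx))).1, mul_zero]
  obtain ⟨R, hR⟩ := hINF f A _ a κ hf habd hκinf hfe
  -- the cycles
  have hmu0 : ∀ p ∈ P, ∀ j, ∃ ε > (0 : ℝ), ∀ z ∈ ball (it f j p) ε, μ z = 0 := by
    intro p hp j
    obtain ⟨ε, hε, h⟩ := hRD.nbh p hp j
    refine ⟨ε, hε, fun z hz => ?_⟩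
    rw [mem_ball, dist_eq_norm] at hz
    obtain ⟨hJ, hring⟩ := h z hz
    rw [hμ z, Finset.sum_eq_zero, Finset.sum_eq_zero, Finset.sum_eq_zero]
    · simp
    · intro x hx
      have : μP x z = 0 := by
        by_contra h0
        obtain ⟨m, -, h1⟩ := (hrP x hx).2.sμ z h0
        exact hring m x (Finset.mem_union_right _ hx) h1
      rw [this, mul_zero]
    · intro x hx
      have : μF x z = 0 := by
        by_contra h0
        obtain ⟨m, -, h1⟩ := (hrF x hx).2.sμ z h0
        exact hring m x (Finset.mem_union_left _ hx) h1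
      rw [this, mul_zero]
    · intro i _
      have : μJ i z = 0 := by
        by_contra h0
        exact hJ ((hLF i).julia z h0)
      rw [this, mul_zero]
  have hanal : ∀ p ∈ P, ∀ j, AnalyticAt ℂ a (it f j p) := by
    intro p hp j
    obtain ⟨ε, hε, h⟩ := hmu0 p hp j
    have h1 : DifferentiableOn ℂ a (ball (it f j p) ε) := by
      have h2 := hdiff (ball (it f j p) ε) isOpen_ball (fun z hz => by rw [h z hz, mul_zero])
      have h3 : a = fun b => (c : ℂ)⁻¹ * NLF.CT (fun z => (c : ℂ) * μ z) b := funext haeq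
      rw [h3]
      exact h2.const_mul _
    exact h1.analyticAt (ball_mem_nhds _ hε)
  have hq1 : ∀ p ∈ P, ∀ j, ∀ x ∈ F, x = it f j p ∨ r < ‖it f j p - x‖ ∨ lF x = 0 := by
    intro p hp j x hx
    by_cases h : it f j p = x
    · exact Or.inl h.symm
    · exact Or.inr (Or.inl (hRD.cyc x (Finset.mem_union_left _ hx) p hp j h))
  have hq2 : ∀ p ∈ P, ∀ j, ∀ x ∈ P, x = it f j p ∨ r < ‖it f j p - x‖ ∨ lP x = 0 := by
    intro p hp j x hx
    by_cases h : it f j p = x
    · exact Or.inl h.symm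
    · exact Or.inr (Or.inl (hRD.cyc x (Finset.mem_union_right _ hx) p hp j h))
  have hcyc : ∀ p ∈ P, ∀ j, ∀ᶠ z in 𝓝 (it f j p), a z = 0 ∧ κ z = 0 := by
    intro p hp
    obtain ⟨k, hk, hkp, hd⟩ := hAPt p hp
    refine hCYC f p k a κ (↑P) hf hk hkp hd (Finset.mem_coe.2 hp) hfe (hanal p hp) ?_ ?_ ?_ ?_
    · intro j
      exact ⟨_, _, hnear (it f j p) (hq1 p hp j) (hq2 p hp j)⟩
    · intro j
      by_cases hCVq : it f j p ∈ CV f
      · left
        rw [← hadd, hCV _ hCVq]
      · right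
        have hnF : it f j p ∉ F := fun h => hCVq ((hT _).1 (hFT h))
        have h1 := (hnear (it f j p) (hq1 p hp j) (hq2 p hp j)).self_of_nhds
        rw [h1, if_neg hnF, sub_self, mul_zero, add_zero]
    · intro j hj
      exact hder _ (Finset.mem_coe.1 hj)
    · intro j hj
      have hnP : it f j p ∉ P := fun h => hj (Finset.mem_coe.2 h)
      have h1 : κ =ᶠ[𝓝 (it f j p)] fun _ => (if it f j p ∈ F then lF (it f j p) *
          s (it f j p) else 0) := by
        filter_upwards [hnear (it f j p) (hq1 p hp j) (hq2 p hp j)] with w hw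
        rw [hw, if_neg hnP, zero_mul, add_zero]
      rw [h1.deriv_eq, deriv_const]
  have hlP : ∀ p ∈ P, lP p = 0 := by
    intro p hp
    have h1 := hnear (it f 0 p) (hq1 p hp 0) (hq2 p hp 0)
    have h2 : ∀ᶠ z in 𝓝 (it f 0 p), κ z = 0 := (hcyc p hp 0).mono (fun z hz => hz.2)
    have h3 := (KER_coef κ (it f 0 p) _ _ h1 h2).2
    have h4 : it f 0 p = p := rfl
    rw [h4, if_pos hp] at h3
    rcases mul_eq_zero.1 h3 with h5 | h5
    · exact h5
    · rw [Complex.ofReal_eq_zero] at h5
      exact absurd h5 (hrP p hp).1.ne'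
  have hlFc : ∀ x ∈ F, ∀ p ∈ P, ∀ j, it f j p = x → lF x = 0 := by
    intro x hx p hp j hj
    have h1 := hnear (it f j p) (hq1 p hp j) (hq2 p hp j)
    have h2 : ∀ᶠ z in 𝓝 (it f j p), κ z = 0 := (hcyc p hp j).mono (fun z hz => hz.2)
    have h3 := (KER_coef κ (it f j p) _ _ h1 h2).1
    rw [hj, if_pos hx] at h3
    rcases mul_eq_zero.1 h3 with h5 | h5
    · exact h5
    · rw [Complex.ofReal_eq_zero] at h5
      exact absurd h5 (hrF x hx).1.ne'
  -- the points of F
  have hlF : ∀ x ∈ F, lF x = 0 := by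
    by_contra hcon
    push Not at hcon
    obtain ⟨x₀, hx₀, hx₀'⟩ := hcon
    have hper : ∀ x ∈ F, lF x ≠ 0 → ∀ j, 1 ≤ j → it f j x ≠ x := by
      intro x hx hlx j hj hjx
      rcases hFE x hx with hE | ⟨p, hp, hA⟩
      · have h1 : Tendsto (fun t : ℕ => j * t) atTop atTop :=
          tendsto_id.const_mul_atTop' (by omega)
        have h2 := hE.comp h1
        have h3 : (fun m => ‖it f m x‖) ∘ (fun t : ℕ => j * t) = fun _ => ‖x‖ := by
          funext t
          show ‖it f (j * t) x‖ = ‖x‖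
          rw [KER_it_mul f j x hjx t]
        rw [h3] at h2
        exact not_tendsto_const_atTop _ _ h2
      · obtain ⟨k, hk, hkp, -⟩ := hAPt p hp
        have h1 : Tendsto (fun t : ℕ => (j * k) * t) atTop atTop :=
          tendsto_id.const_mul_atTop' (Nat.mul_pos (by omega) hk)
        have h2 := hA.comp h1
        have h3 : (fun m => it f m x - it f m p) ∘ (fun t : ℕ => (j * k) * t) =
            fun _ => x - p := by
          funext t
          show it f ((j * k) * t) x - it f ((j * k) * t) p = x - p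
          rw [mul_assoc, KER_it_mul f j x hjx (k * t), ← mul_assoc, mul_comm j k, mul_assoc,
            KER_it_mul f k p hkp (j * t)]
        rw [h3] at h2
        have h4 : x - p = 0 := tendsto_nhds_unique tendsto_const_nhds h2
        exact hlx (hlFc x hx p hp 0 (sub_eq_zero.1 h4).symm)
    -- a maximal point
    have hmax : ∃ v ∈ F, lF v ≠ 0 ∧ ∀ x ∈ F, lF x ≠ 0 → ∀ j, 1 ≤ j → it f j v ≠ x := by
      let α := {x : ℂ // x ∈ F ∧ lF x ≠ 0}
      haveI : Finite α := Finite.of_injective (fun x : α => (⟨x.1, x.2.1⟩ : F)) (by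
        intro x y h
        apply Subtype.ext
        exact congrArg (fun z : F => (z : ℂ)) h)
      let rel : α → α → Prop := fun x y => ∃ j, 1 ≤ j ∧ it f j y.1 = x.1
      haveI : IsTrans α rel := ⟨by
        rintro x y z ⟨j, hj, h⟩ ⟨j', hj', h'⟩
        refine ⟨j + j', by omega, ?_⟩
        rw [KER_it_add, h', h]⟩
      haveI : Std.Irrefl rel := ⟨by
        rintro x ⟨j, hj, h⟩
        exact hper x.1 x.2.1 x.2.2 j hj h⟩
      have hwf : WellFounded rel := Finite.wellFounded_of_trans_of_irrefl rel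
      obtain ⟨v, -, hv⟩ := hwf.has_min (Set.univ : Set α) ⟨⟨x₀, hx₀, hx₀'⟩, Set.mem_univ _⟩
      refine ⟨v.1, v.2.1, v.2.2, fun x hx hlx j hj h => ?_⟩
      exact hv ⟨x, hx, hlx⟩ (Set.mem_univ _) ⟨j, hj, h⟩
    obtain ⟨v, hvF, hlv, hvmax⟩ := hmax
    -- the choice of m₀
    have hm₀ : ∃ m₀, ∀ᶠ z in 𝓝 (it f m₀ v), a z = 0 := by
      rcases hFE v hvF with hE | ⟨p, hp, hA⟩
      · obtain ⟨m, hm⟩ := (hE.eventually (eventually_gt_atTop R)).exists
        refine ⟨m, ?_⟩
        have h1 : IsOpen {z : ℂ | R < ‖z‖} := isOpen_lt continuous_const continuous_norm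
        filter_upwards [h1.mem_nhds hm] with z hz
        exact hR z hz
      · obtain ⟨k, hk, hkp, -⟩ := hAPt p hp
        have h0 := hcyc p hp 0
        have h4 : it f 0 p = p := rfl
        rw [h4] at h0
        obtain ⟨ε, hε, hball⟩ := Metric.eventually_nhds_iff_ball.1 h0
        have h1 : Tendsto (fun t : ℕ => k * t) atTop atTop :=
          tendsto_id.const_mul_atTop' hk
        have h2 := hA.comp h1
        have h3 : (fun m => it f m v - it f m p) ∘ (fun t : ℕ => k * t) =
            fun t => it f (k * t) v - p := by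
          funext t
          show it f (k * t) v - it f (k * t) p = it f (k * t) v - p
          rw [KER_it_mul f k p hkp t]
        rw [h3] at h2
        obtain ⟨t, ht⟩ := (h2.eventually (ball_mem_nhds (0 : ℂ) hε)).exists
        rw [dist_zero_right] at ht
        refine ⟨k * t, ?_⟩
        have h5 : it f (k * t) v ∈ ball p ε := by
          rw [mem_ball, dist_eq_norm]
          exact ht
        filter_upwards [isOpen_ball.mem_nhds h5] with z hz
        exact (hball z hz).1
    obtain ⟨m₀, hm₀⟩ := hm₀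
    have hav : a v = 0 := by
      refine hMX f a κ v m₀ (by omega) hacont hfe hm₀ (fun j hj1 hj2 => ?_)
      have h1 := hnear (it f j v) (by
        intro x hx
        by_cases hlx : lF x = 0
        · exact Or.inr (Or.inr hlx)
        · right
          left
          exact hRD.orb x hx (fun p hp i hi => hlx (hlFc x hx p hp i hi)) v hvF j
            (hvmax x hx hlx j hj1)) (fun p hp => Or.inr (Or.inr (hlP p hp)))
      have h2 : (if it f j v ∈ F then lF (it f j v) * (s (it f j v) : ℂ) else 0) = 0 := by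
        by_cases h : it f j v ∈ F
        · rw [if_pos h]
          have h3 : lF (it f j v) = 0 := by
            by_contra h4
            exact hvmax _ h h4 j hj1 rfl
          rw [h3, zero_mul]
        · rw [if_neg h]
      have h3 : (if it f j v ∈ P then lP (it f j v) * (s' (it f j v) : ℂ) else 0) = 0 := by
        by_cases h : it f j v ∈ P
        · rw [if_pos h, hlP _ h, zero_mul]
        · rw [if_neg h]
      filter_upwards [h1] with w hw
      rw [hw, h2, h3, zero_mul, add_zero]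
    have hvT : v ∈ T := hFT hvF
    have hsum : a v + κ v = 0 := by
      rw [← hadd, hCV v ((hT v).1 hvT)]
    rw [hav, zero_add] at hsum
    have h1 := (hnear v (by
        intro x hx
        by_cases hxv : x = v
        · exact Or.inl hxv
        · right
          left
          exact hRD.sep x (Finset.mem_union_left _ hx) v hvT (Ne.symm hxv))
      (fun p hp => Or.inr (Or.inr (hlP p hp)))).self_of_nhds
    rw [hsum, if_pos hvF, sub_self, mul_zero, add_zero] at h1
    rcases mul_eq_zero.1 h1.symm with h5 | h5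
    · exact hlv h5
    · rw [Complex.ofReal_eq_zero] at h5
      exact (hrF v hvF).1.ne' h5
  refine ⟨hlF, hlP, ?_⟩
  -- line fields
  have hβ0 : ∀ z, β z = 0 := by
    intro z
    rw [hβ z, Finset.sum_eq_zero, Finset.sum_eq_zero, add_zero]
    · intro p hp
      rw [hlP p hp, zero_mul]
    · intro x hx
      rw [hlF x hx, zero_mul]
  have hμ0 : ∀ z, μ z = ∑ i, l i * μJ i z := by
    intro z
    have e1 : ∑ x ∈ F, lF x * μF x z = 0 := Finset.sum_eq_zero (fun x hx => by
      rw [hlF x hx, zero_mul])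
    have e2 : ∑ p ∈ P, lP p * μP p z = 0 := Finset.sum_eq_zero (fun x hx => by
      rw [hlP x hx, zero_mul])
    rw [hμ z, e1, e2, add_zero, add_zero]
  have hLFc : LF f A (fun z => (c : ℂ) * μ z) := by
    refine ⟨hPR.measμ, hPR.bdμ, hPR.suppμ, ?_, ?_⟩
    · intro z hz
      have h1 : μ z ≠ 0 := right_ne_zero_of_mul hz
      rw [hμ0 z] at h1
      obtain ⟨i, -, hi⟩ := Finset.exists_ne_zero_of_sum_ne_zero h1
      exact (hLF i).julia z (right_ne_zero_of_mul hi)
    · filter_upwards [hPR.inv] with z hz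
      rw [hβ0, mul_zero, add_zero] at hz
      exact hz
  have hfin := hLNZ f A _ hf hLFc (by
    intro v hv
    have h1 : NLF.CT β v = 0 := by
      unfold NLF.CT
      simp [hβ0]
    have h2 := hCV v hv
    rw [hadd, hκdef, h1, add_zero] at h2
    rw [KER_CT_mul, ← ha, h2, mul_zero])
  filter_upwards [hfin] with z hz
  rw [← hμ0 z]
  exact (mul_eq_zero.1 hz).resolve_left hcC

end PPS
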